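import Pool.Agent.Helper25.FN.Spec

/-!
Part IBPN of the swarm FN (MP_6e521b_an): integration by parts for the iterated Euler operator.
-/

set_option autoImplicit false

namespace Pool.Agent.Helper73.FN.IBPN

open MeasureTheory
open scoped ContDiff
open Pool.Agent.Helper25.FN

variable {n : ℕ}

lemma sym_zero (h1 : S_SYM1) {k : ℤ} {q : V n → ℂ} (hq : Sym k q) : Sym k (fun _ : V n => (0 : ℂ)) := by
  obtain ⟨hm, _, hl, hc, _⟩ := h1 n
  have h := hm 0 k (fun _ => 0) q (hc 0) hq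
  simpa using h

lemma sym_sum (h1 : S_SYM1) {k : ℤ} (a : Fin n → V n → ℂ) (ha : ∀ j, Sym k (a j))
    {q : V n → ℂ} (hq : Sym k q) (S : Finset (Fin n)) : Sym k (fun z => ∑ j ∈ S, a j z) := by
  classical
  induction S using Finset.induction_on with
  | empty => simpa using sym_zero h1 hq
  | insert j S hj ih =>
    have h := (h1 n).2.1 k (a j) (fun z => ∑ j ∈ S, a j z) (ha j) ih
    simpa [Finset.sum_insert hj] using h

lemma sym_gr (h1 : S_SYM1) (Φ : V n → ℝ) (hΦ : Sym 1 (fun z => (Φ z : ℂ))) (j : Fin n) :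
    Sym 0 (fun z => gr Φ z j) := by
  obtain ⟨hm, _, hl, hc, _, hw⟩ := h1 n
  have h2 := hw 1 (fun z => (Φ z : ℂ)) j hΦ
  have h3 := hm 0 (1 - 1) (fun _ => 2) _ (hc 2) h2
  have h4 : Sym (0 + (1 - 1)) (fun z => gr Φ z j) := h3
  simpa using h4

/-- the derivative of a symbol times the weight -/
lemma wd_mul_wc (h1 : S_SYM1) (hWD : S_WD) (Φ : V n → ℝ) (hs : ContDiff ℝ ∞ Φ)
    (hΦ : Sym 1 (fun z => (Φ z : ℂ))) {k : ℤ} {a : V n → ℂ} (ha : Sym k a) (j : Fin n) :
    Sym k (fun z => wd j a z + (-1) * (a z * gr Φ z j)) ∧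
      ∀ z, wd j (fun y => a y * wc Φ y) z = (wd j a z + (-1) * (a z * gr Φ z j)) * wc Φ z := by
  obtain ⟨hm, hadd, hl, hc, _, hw⟩ := h1 n
  constructor
  · apply hadd
    · exact hl (k - 1) k _ (by omega) (hw k a j ha)
    · have h2 := hm k 0 a _ ha (sym_gr h1 Φ hΦ j)
      have h3 := hm 0 (k + 0) (fun _ => (-1 : ℂ)) _ (hc (-1)) h2
      simpa using h3
  · intro z
    obtain ⟨hp, _, _, hwc, _⟩ := hWD n j
    obtain ⟨hwc1, hwc2⟩ := hwc Φ hs
    have hda : Differentiable ℝ a := ha.1.differentiable (by simp)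
    have hdw : Differentiable ℝ (wc Φ) := hwc1.differentiable (by simp)
    rw [(hp a (wc Φ) hda hdw z).2, hwc2 z]
    ring

lemma sym_coord_mul (h1 : S_SYM1) {k : ℤ} {a : V n → ℂ} (ha : Sym k a) (j : Fin n) :
    Sym (k + 1) (fun z => z j * a z) := by
  obtain ⟨hm, _, hl, _, hz, _⟩ := h1 n
  have h := hm 1 k (fun z => z j) a (hz j) ha
  rwa [add_comm] at h

/-- the symbol of `Nt l (q wc)` -/
noncomputable def nq (Φ : V n → ℝ) (l : ℝ) (q : V n → ℂ) : V n → ℂ := fun z =>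
  (l : ℂ) * q z + (-1) * ∑ j, (wd j (fun y => y j * q y) z + (-1) * (z j * q z * gr Φ z j))

lemma nt_mul_wc (h1 : S_SYM1) (hWD : S_WD) (Φ : V n → ℝ) (hs : ContDiff ℝ ∞ Φ)
    (hΦ : Sym 1 (fun z => (Φ z : ℂ))) (l : ℝ) {k : ℤ} {q : V n → ℂ} (hq : Sym k q) :
    Sym (k + 1) (nq Φ l q) ∧ Nt l (fun y => q y * wc Φ y) = fun z => nq Φ l q z * wc Φ z := by
  have hj := fun j : Fin n => wd_mul_wc h1 hWD Φ hs hΦ (sym_coord_mul h1 hq j) j
  obtain ⟨hm, hadd, hl, hc, _, hw⟩ := h1 n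
  constructor
  · unfold nq
    apply hadd
    · have h2 := hm 0 k (fun _ => (l : ℂ)) q (hc l) hq
      exact hl (0 + k) (k + 1) _ (by omega) h2
    · have h3 := sym_sum h1 (k := k + 1) _ (fun j => (hj j).1)
        (hl k (k + 1) q (by omega) hq) Finset.univ
      have h4 := hm 0 (k + 1) (fun _ => (-1 : ℂ)) _ (hc (-1)) h3
      simpa using h4
  · funext z
    unfold Nt nq
    have h5 : ∀ j : Fin n, wd j (fun y => y j * (q y * wc Φ y)) z =
        (wd j (fun y => y j * q y) z + (-1) * (z j * q z * gr Φ z j)) * wc Φ z := by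
      intro j
      rw [← (hj j).2 z]
      congr 1
      funext y
      ring
    rw [Finset.sum_congr rfl fun j _ => h5 j, ← Finset.sum_mul]
    ring

lemma nt_iter (h1 : S_SYM1) (hWD : S_WD) (Φ : V n → ℝ) (hs : ContDiff ℝ ∞ Φ)
    (hΦ : Sym 1 (fun z => (Φ z : ℂ))) (l : ℝ) (i : ℕ) {k : ℤ} {q : V n → ℂ} (hq : Sym k q) :
    ∃ q', Sym (k + i) q' ∧ (Nt l)^[i] (fun y => q y * wc Φ y) = fun z => q' z * wc Φ z := by
  induction i with
  | zero => exact ⟨q, by simpa using hq, rfl⟩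
  | succ i ih =>
    obtain ⟨q', hq', he⟩ := ih
    have h := nt_mul_wc h1 hWD Φ hs hΦ l hq'
    refine ⟨nq Φ l q', ?_, ?_⟩
    · have := h.1
      push_cast
      rwa [← add_assoc]
    · rw [Function.iterate_succ_apply', he, h.2]

lemma nop_gr (h2 : S_GR2) (Φ : V n → ℝ) (hs : ContDiff ℝ ∞ Φ)
    (hΦ : Sym 1 (fun z => (Φ z : ℂ))) (l : ℝ) {s : ℤ} {f : V n → ℂ} (hf : Gr Φ s f) :
    Gr Φ (s + 1) (Nop l f) := by
  classical
  obtain ⟨hw, hadd, hc, hl, hP, _⟩ := h2 n Φ hs hΦ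
  have hsum : ∀ S : Finset (Fin n), Gr Φ (s + 1) (fun z => ∑ j ∈ S, z j * wd j f z) := by
    intro S
    induction S using Finset.induction_on with
    | empty =>
      have := hl s (s + 1) _ (by omega) (hc s f 0 hf)
      simpa using this
    | insert j S hj ih =>
      have h3 := hP s (wd j f) (MvPolynomial.X j) (hw s f j hf)
      simp only [MvPolynomial.eval_X, MvPolynomial.totalDegree_X, Nat.cast_one] at h3
      have h4 := hadd (s + 1) _ _ h3 ih
      simpa [Finset.sum_insert hj] using h4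
  have h5 := hl s (s + 1) _ (by omega) (hc s f (l : ℂ) hf)
  exact hadd (s + 1) _ _ h5 (hsum Finset.univ)

lemma step (h1 : S_SYM1) (hWD : S_WD) (h2 : S_GR2) (hI : S_IBP) (Φ : V n → ℝ)
    (hs : ContDiff ℝ ∞ Φ) (hΦ : Sym 1 (fun z => (Φ z : ℂ))) (l : ℝ) {s t k : ℤ}
    {f r q : V n → ℂ} (hf : Gr Φ s f) (hr : Gr Φ t r) (hq : Sym k q)
    (hst : s + t + k + 1 ≤ -(2 * n + 1 : ℤ)) :
    ∫ z, Nop l f z * starRingEnd ℂ (r z) * (q z * wc Φ z) =
      ∫ z, f z * starRingEnd ℂ (r z) * Nt l (fun y => q y * wc Φ y) z := by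
  have hI' := hI n Φ hs hΦ
  have hsm := fun j : Fin n => sym_coord_mul h1 hq j
  have hw : ∀ j : Fin n, Gr Φ s (wd j f) := fun j => (h2 n Φ hs hΦ).1 s f j hf
  have i0 : Integrable (fun z => f z * starRingEnd ℂ (r z) * (q z * wc Φ z)) :=
    if h : 0 < n then (hI' ⟨0, h⟩ k s t f r q hf hr hq (by omega)).1 else by
      have hn : n = 0 := by omega
      subst hn
      exact Integrable.of_finite
  have i1 : ∀ j : Fin n, Integrable
      (fun z => wd j f z * starRingEnd ℂ (r z) * (z j * q z * wc Φ z)) := fun j =>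
    (hI' j (k + 1) s t (wd j f) r _ (hw j) hr (hsm j) (by omega)).1
  have e1 : ∀ j : Fin n, ∫ z, wd j f z * starRingEnd ℂ (r z) * (z j * q z * wc Φ z) =
      -∫ z, f z * starRingEnd ℂ (r z) * wd j (fun y => y j * q y * wc Φ y) z := fun j =>
    (hI' j (k + 1) s t f r _ hf hr (hsm j) (by omega)).2
  have hj := fun j : Fin n => wd_mul_wc h1 hWD Φ hs hΦ (hsm j) j
  have i2 : ∀ j : Fin n, Integrable
      (fun z => f z * starRingEnd ℂ (r z) * wd j (fun y => y j * q y * wc Φ y) z) := by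
    intro j
    have h := (hI' j (k + 1) s t f r _ hf hr (hj j).1 (by omega)).1
    refine h.congr (Filter.Eventually.of_forall fun z => ?_)
    simp only
    rw [(hj j).2 z]
  have a1 : ∀ z, Nop l f z * starRingEnd ℂ (r z) * (q z * wc Φ z) =
      (l : ℂ) * (f z * starRingEnd ℂ (r z) * (q z * wc Φ z)) +
        ∑ j, wd j f z * starRingEnd ℂ (r z) * (z j * q z * wc Φ z) := by
    intro z
    unfold Nop
    rw [add_mul, add_mul, Finset.sum_mul, Finset.sum_mul]
    congr 1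
    · ring
    · exact Finset.sum_congr rfl fun j _ => by ring
  have a2 : ∀ z, f z * starRingEnd ℂ (r z) * Nt l (fun y => q y * wc Φ y) z =
      (l : ℂ) * (f z * starRingEnd ℂ (r z) * (q z * wc Φ z)) +
        ∑ j, -(f z * starRingEnd ℂ (r z) * wd j (fun y => y j * q y * wc Φ y) z) := by
    intro z
    unfold Nt
    rw [mul_sub, Finset.mul_sum, sub_eq_add_neg, ← Finset.sum_neg_distrib]
    congr 1
    · ring
    · refine Finset.sum_congr rfl fun j _ => ?_
      congr 3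
      funext y
      ring
  have i3 : ∀ j : Fin n, Integrable
      (fun z => -(f z * starRingEnd ℂ (r z) * wd j (fun y => y j * q y * wc Φ y) z)) :=
    fun j => (i2 j).neg
  simp only [a1, a2]
  rw [integral_add (i0.const_mul _) (integrable_finsetSum _ fun j _ => i1 j),
    integral_add (i0.const_mul _) (integrable_finsetSum _ fun j _ => i3 j),
    integral_finsetSum _ fun j _ => i1 j, integral_finsetSum _ fun j _ => i3 j]
  congr 1
  refine Finset.sum_congr rfl fun j _ => ?_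
  rw [e1 j, integral_neg]

lemma iter (h1 : S_SYM1) (hWD : S_WD) (h2 : S_GR2) (hI : S_IBP) (Φ : V n → ℝ)
    (hs : ContDiff ℝ ∞ Φ) (hΦ : Sym 1 (fun z => (Φ z : ℂ))) (l : ℝ) (i : ℕ) :
    ∀ {s t k : ℤ} {f r q : V n → ℂ}, Gr Φ s f → Gr Φ t r → Sym k q →
      s + t + k + i ≤ -(2 * n + 1 : ℤ) →
      ∫ z, ((Nop l)^[i] f) z * starRingEnd ℂ (r z) * (q z * wc Φ z) =
        ∫ z, f z * starRingEnd ℂ (r z) * ((Nt l)^[i] (fun y => q y * wc Φ y)) z := by
  induction i with
  | zero => intro s t k f r q _ _ _ _; rfl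
  | succ i ih =>
    intro s t k f r q hf hr hq hst
    push_cast at hst
    rw [Function.iterate_succ_apply, ih (nop_gr h2 Φ hs hΦ l hf) hr hq (by omega)]
    obtain ⟨q', hq', he⟩ := nt_iter h1 hWD Φ hs hΦ l i hq
    rw [Function.iterate_succ_apply', he]
    exact step h1 hWD h2 hI Φ hs hΦ l hf hr hq' (by omega)

theorem main (h1 : S_SYM1) (hWD : S_WD) (h2 : S_GR2) (hI : S_IBP) : S_IBPN := by
  intro n Φ hs hΦ l i s t f r hf hr hst
  have hone : Sym 0 (fun _ : V n => (1 : ℂ)) := (h1 n).2.2.2.1 1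
  have h := iter h1 hWD h2 hI Φ hs hΦ l i hf hr hone (by omega)
  simpa using h

end Pool.Agent.Helper73.FN.IBPN
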