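import Pool.Agent.Helper25.FB.Inj

/-!
Uniqueness of Taylor coefficients in several variables, coefficients of a derivative and of a
product with a coordinate.
-/

set_option autoImplicit false

namespace Pool.Agent.Helper73.FN.Tay

open Filter Topology

/-- one variable: a power series which vanishes everywhere is zero -/
theorem unique_one (d : ℕ → ℂ) (h : ∀ s : ℂ, HasSum (fun k => d k * s ^ k) 0) : ∀ k, d k = 0 := by
  intro k
  have h1 : HasFPowerSeriesAt (fun _ : ℂ => (0 : ℂ)) (FormalMultilinearSeries.ofScalars ℂ d) 0 := by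
    rw [hasFPowerSeriesAt_iff]
    refine Eventually.of_forall fun z => ?_
    have := h z
    simpa [FormalMultilinearSeries.coeff_ofScalars, mul_comm] using this
  have h2 : HasFPowerSeriesAt (fun _ : ℂ => (0 : ℂ)) (0 : FormalMultilinearSeries ℂ ℂ ℂ) 0 := by
    simpa using (hasFPowerSeriesAt_const (𝕜 := ℂ) (c := (0 : ℂ)) (e := (0 : ℂ)))
  have h3 := h1.eq_formalMultilinearSeries h2
  have h4 : FormalMultilinearSeries.coeff (FormalMultilinearSeries.ofScalars ℂ d) k =
      FormalMultilinearSeries.coeff (0 : FormalMultilinearSeries ℂ ℂ ℂ) k := by rw [h3]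
  rw [FormalMultilinearSeries.coeff_ofScalars] at h4
  rw [h4]
  rfl

theorem coef_zero {n : ℕ} (d : (Fin n → ℕ) → ℂ)
    (h : ∀ z : Fin n → ℂ, HasSum (fun α => d α * ∏ i, z i ^ α i) 0) : ∀ α, d α = 0 := by
  induction n with
  | zero =>
    intro α
    have h0 := h 0
    have h1 := h0.unique (hasSum_fintype _)
    simp only [Finset.univ_eq_empty, Finset.prod_empty, mul_one, Finset.univ_unique,
      Finset.sum_singleton] at h1
    exact (congrArg d (Subsingleton.elim _ _)).trans h1.symm
  | succ n ih =>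
    have key : ∀ (k : ℕ) (β : Fin n → ℕ), d (Fin.cons k β) = 0 := by
      intro k
      apply ih (fun β => d (Fin.cons k β))
      intro z
      have hs : ∀ s : ℂ, HasSum (fun x : ℕ × (Fin n → ℕ) =>
          d (Fin.cons x.1 x.2) * (s ^ x.1 * ∏ i, z i ^ x.2 i)) 0 := by
        intro s
        have h1 := h (Fin.cons s z)
        rw [← (Fin.consEquiv (fun _ : Fin (n + 1) => ℕ)).hasSum_iff] at h1
        convert h1 using 2 with x
        simp only [Function.comp_apply]
        change _ = d (Fin.cons x.1 x.2) * ∏ i : Fin (n + 1),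
          (Fin.cons s z : Fin (n + 1) → ℂ) i ^ (Fin.cons x.1 x.2 : Fin (n + 1) → ℕ) i
        rw [Fin.prod_univ_succ]
        simp
      have hsl : ∀ k, Summable fun β : Fin n → ℕ => d (Fin.cons k β) * ∏ i, z i ^ β i := by
        intro k
        have h2 := (hs 1).summable.prod_factor k
        simpa using h2
      have hone : ∀ s : ℂ, HasSum (fun k : ℕ =>
          (∑' β : Fin n → ℕ, d (Fin.cons k β) * ∏ i, z i ^ β i) * s ^ k) 0 := by
        intro s
        have h2 := (hs s).prod_fiberwise (g := fun k : ℕ =>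
          (∑' β : Fin n → ℕ, d (Fin.cons k β) * ∏ i, z i ^ β i) * s ^ k) (fun k => by
            have h3 := (hsl k).hasSum.mul_right (s ^ k)
            refine h3.congr_fun ?_ |> fun h => h
            intro β
            ring)
        exact h2
      have h4 := unique_one _ hone k
      rw [← h4]
      exact (hsl k).hasSum
    intro α
    have := key (α 0) (Fin.tail α)
    rwa [Fin.cons_self_tail] at this

theorem coef_unique {n : ℕ} (c c' : (Fin n → ℕ) → ℂ) (f : (Fin n → ℂ) → ℂ)
    (h : ∀ z : Fin n → ℂ, HasSum (fun α => c α * ∏ i, z i ^ α i) (f z))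
    (h' : ∀ z : Fin n → ℂ, HasSum (fun α => c' α * ∏ i, z i ^ α i) (f z)) : c = c' := by
  funext α
  have := coef_zero (fun α => c α - c' α) (fun z => by
    have h1 := (h z).sub (h' z)
    rw [sub_self] at h1
    refine h1.congr_fun (fun α => ?_)
    exact sub_mul _ _ _) α
  exact sub_eq_zero.1 this

theorem coef_deriv {n : ℕ} (j : Fin n) (F : (Fin n → ℂ) → ℂ) (hF : Differentiable ℂ F)
    (c : (Fin n → ℕ) → ℂ)
    (h : ∀ z : Fin n → ℂ, HasSum (fun α => c α * ∏ i, z i ^ α i) (F z)) (z : Fin n → ℂ) :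
    HasSum (fun α : Fin n → ℕ => ((α j + 1 : ℕ) : ℂ) * c (α + Pi.single j 1) * ∏ i, z i ^ α i)
      (fderiv ℂ F z (Pi.single j 1)) := by
  classical
  obtain ⟨c₀, hb, hs⟩ := Pool.Agent.Helper25.FB.Inj.taylor F hF
  have hc : c = c₀ := coef_unique c c₀ F h hs
  subst hc
  let w : ℂ → Fin n → ℂ := fun t => Function.update z j (z j + t)
  let A : (Fin n → ℕ) → ℂ := fun α => ∏ i ∈ Finset.univ.erase j, z i ^ α i
  have hw : ∀ t α, ∏ i, w t i ^ α i = (z j + t) ^ α j * A α := by
    intro t α
    rw [← Finset.mul_prod_erase Finset.univ _ (Finset.mem_univ j)]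
    congr 1
    · simp [w]
    · refine Finset.prod_congr rfl fun i hi => ?_
      have hij : i ≠ j := (Finset.mem_erase.1 hi).1
      simp [w, hij]
  have hw0 : w 0 = z := by
    simp [w]
  have hwt : ∀ t, w t = z + t • (Pi.single j 1 : Fin n → ℂ) := by
    intro t
    funext i
    by_cases hij : i = j
    · subst hij; simp [w]
    · simp [w, hij]
  set R : ℝ := ‖z‖ + 1 with hR
  have hR1 : 1 ≤ R := by rw [hR]; linarith [norm_nonneg z]
  have hR0 : 0 < R := by linarith
  obtain ⟨M, hM⟩ := (isCompact_closedBall (0 : Fin n → ℂ) (4 * R)).exists_bound_of_continuousOn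
    hF.continuous.continuousOn
  have hcb := hb (4 * R) M (by positivity) (fun y hy => hM y (by simpa using hy))
  let g : (Fin n → ℕ) → ℂ → ℂ := fun α t => c α * ((z j + t) ^ α j * A α)
  let g' : (Fin n → ℕ) → ℂ → ℂ := fun α t => c α * ((α j * (z j + t) ^ (α j - 1)) * A α)
  have hg : ∀ α t, HasDerivAt (g α) (g' α t) t := by
    intro α t
    have h1 : HasDerivAt (fun t : ℂ => z j + t) 1 t := (hasDerivAt_id t).const_add (z j)
    have h2 := ((h1.fun_pow (α j)).mul_const (A α)).const_mul (c α)
    simpa [g, g'] using h2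
  have hAb : ∀ α, ‖A α‖ * R ^ α j ≤ R ^ (∑ i, α i) := by
    intro α
    have h1 : ‖A α‖ ≤ ∏ i ∈ Finset.univ.erase j, R ^ α i := by
      simp only [A]
      rw [norm_prod]
      refine Finset.prod_le_prod (fun i _ => norm_nonneg _) fun i _ => ?_
      rw [norm_pow]
      refine pow_le_pow_left₀ (norm_nonneg _) ?_ _
      have := norm_le_pi_norm z i
      linarith
    calc ‖A α‖ * R ^ α j ≤ (∏ i ∈ Finset.univ.erase j, R ^ α i) * R ^ α j :=
          mul_le_mul_of_nonneg_right h1 (by positivity)
      _ = R ^ (∑ i, α i) := by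
          rw [Finset.prod_erase_mul _ _ (Finset.mem_univ j), Finset.prod_pow_eq_pow_sum]
  have hg' : ∀ α t, t ∈ Metric.ball (0 : ℂ) 1 → ‖g' α t‖ ≤ M * (1 / 2) ^ (∑ i, α i) := by
    intro α t ht
    have ht' : ‖t‖ < 1 := by simpa using ht
    have h1 : ‖z j + t‖ ≤ R := by
      have := norm_le_pi_norm z j
      exact (norm_add_le _ _).trans (by rw [hR]; linarith)
    have h2 : ‖(z j + t) ^ (α j - 1)‖ ≤ R ^ α j := by
      rw [norm_pow]
      calc ‖z j + t‖ ^ (α j - 1) ≤ R ^ (α j - 1) := pow_le_pow_left₀ (norm_nonneg _) h1 _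
        _ ≤ R ^ α j := pow_le_pow_right₀ hR1 (Nat.sub_le _ _)
    have h3 : (α j : ℝ) ≤ 2 ^ (∑ i, α i) := by
      have h4 : α j ≤ ∑ i, α i := Finset.single_le_sum (fun i _ => Nat.zero_le _)
        (Finset.mem_univ j)
      have h5 : ∑ i, α i < 2 ^ (∑ i, α i) := Nat.lt_two_pow_self
      have h6 : α j ≤ 2 ^ (∑ i, α i) := by omega
      exact_mod_cast h6
    have h7 := hcb α
    have hM0 : 0 ≤ ‖c α‖ := norm_nonneg _
    simp only [g', norm_mul, Complex.norm_natCast]
    calc ‖c α‖ * ((α j : ℝ) * ‖(z j + t) ^ (α j - 1)‖ * ‖A α‖)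
        ≤ ‖c α‖ * (2 ^ (∑ i, α i) * R ^ α j * ‖A α‖) := by gcongr
      _ = ‖c α‖ * 2 ^ (∑ i, α i) * (‖A α‖ * R ^ α j) := by ring
      _ ≤ ‖c α‖ * 2 ^ (∑ i, α i) * R ^ (∑ i, α i) :=
          mul_le_mul_of_nonneg_left (hAb α) (by positivity)
      _ = (‖c α‖ * (4 * R) ^ (∑ i, α i)) * (1 / 2) ^ (∑ i, α i) := by
          have : (2 : ℝ) ^ (∑ i, α i) = 4 ^ (∑ i, α i) * (1 / 2) ^ (∑ i, α i) := by
            rw [← mul_pow]; norm_num
          rw [mul_pow, this]
          ring
      _ ≤ M * (1 / 2) ^ (∑ i, α i) := mul_le_mul_of_nonneg_right h7 (by positivity)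
  have hu : Summable fun α : Fin n → ℕ => M * (1 / 2) ^ (∑ i, α i) :=
    (Pool.Agent.Helper25.FB.Inj.geom_summable n (1 / 2) (by norm_num) (by norm_num)).mul_left M
  have hsum : ∀ t, HasSum (fun α => g α t) (F (w t)) := by
    intro t
    have h1 := h (w t)
    simp only [hw] at h1
    exact h1
  have h0 : (0 : ℂ) ∈ Metric.ball (0 : ℂ) 1 := by simp
  have hD := hasDerivAt_tsum_of_isPreconnected hu Metric.isOpen_ball
    (convex_ball (0 : ℂ) 1).isPreconnected (fun α t _ => hg α t) hg' h0 (hsum 0).summable h0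
  have hD1 : HasDerivAt (fun t => F (w t)) (∑' α, g' α 0) 0 := by
    have : (fun t => ∑' α, g α t) = fun t => F (w t) := by
      funext t
      exact (hsum t).tsum_eq
    rwa [this] at hD
  have hD2 : HasDerivAt (fun t => F (w t)) (fderiv ℂ F z (Pi.single j 1)) 0 := by
    have e1 : HasDerivAt w (Pi.single j 1 : Fin n → ℂ) 0 := by
      have e2 : w = fun t => z + t • (Pi.single j 1 : Fin n → ℂ) := funext hwt
      rw [e2]
      have e3 := ((hasDerivAt_id (0 : ℂ)).smul_const (Pi.single j 1 : Fin n → ℂ)).const_add z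
      simpa using e3
    have e4 : HasFDerivAt F (fderiv ℂ F z) (w 0) := by
      rw [hw0]; exact (hF z).hasFDerivAt
    exact e4.comp_hasDerivAt 0 e1
  have hval := hD1.unique hD2
  have hfin : HasSum (fun α => g' α 0) (fderiv ℂ F z (Pi.single j 1)) := by
    rw [← hval]
    exact (Summable.of_norm_bounded hu fun α => hg' α 0 h0).hasSum
  have hinj : Function.Injective fun α : Fin n → ℕ => α + Pi.single j 1 :=
    fun a b hab => add_right_cancel hab
  rw [← hinj.hasSum_iff] at hfin
  · refine hfin.congr_fun fun α => ?_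
    simp only [Function.comp_apply, g', Pi.add_apply, Pi.single_eq_same, Nat.add_sub_cancel,
      add_zero]
    have e5 : A (α + Pi.single j 1) = A α := by
      refine Finset.prod_congr rfl fun i hi => ?_
      have hij : i ≠ j := (Finset.mem_erase.1 hi).1
      simp [hij]
    rw [e5, ← Finset.mul_prod_erase Finset.univ (fun i => z i ^ α i) (Finset.mem_univ j)]
    simp only [A]
    ring
  · intro α hα
    have : α j = 0 := by
      by_contra hne
      apply hα
      refine ⟨α - Pi.single j 1, ?_⟩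
      funext i
      by_cases hij : i = j
      · subst hij
        simp only [Pi.add_apply, Pi.sub_apply, Pi.single_eq_same]
        omega
      · simp [hij]
    simp [g', this]

theorem coef_mul {n : ℕ} (j : Fin n) (f : (Fin n → ℂ) → ℂ) (c : (Fin n → ℕ) → ℂ) (z : Fin n → ℂ)
    (h : HasSum (fun α => c α * ∏ i, z i ^ α i) (f z)) :
    HasSum (fun α : Fin n → ℕ => (if α j = 0 then 0 else c (α - Pi.single j 1)) *
      ∏ i, z i ^ α i) (z j * f z) := by
  classical
  have hinj : Function.Injective fun α : Fin n → ℕ => α + Pi.single j 1 :=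
    fun a b hab => add_right_cancel hab
  rw [← hinj.hasSum_iff]
  · refine (h.mul_left (z j)).congr_fun fun α => ?_
    simp only [Function.comp_apply, Pi.add_apply, Pi.single_eq_same, Nat.add_eq_zero_iff,
      one_ne_zero, and_false, if_false, add_tsub_cancel_right]
    rw [← Finset.mul_prod_erase Finset.univ (fun i => z i ^ (α i + (Pi.single j 1 : Fin n → ℕ) i))
      (Finset.mem_univ j), ← Finset.mul_prod_erase Finset.univ (fun i => z i ^ α i)
      (Finset.mem_univ j)]
    have e5 : ∏ i ∈ Finset.univ.erase j, z i ^ (α i + (Pi.single j 1 : Fin n → ℕ) i) =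
        ∏ i ∈ Finset.univ.erase j, z i ^ α i := by
      refine Finset.prod_congr rfl fun i hi => ?_
      have hij : i ≠ j := (Finset.mem_erase.1 hi).1
      simp [hij]
    rw [e5, Pi.single_eq_same, pow_succ]
    ring
  · intro α hα
    have : α j = 0 := by
      by_contra hne
      apply hα
      refine ⟨α - Pi.single j 1, ?_⟩
      funext i
      by_cases hij : i = j
      · subst hij
        simp only [Pi.add_apply, Pi.sub_apply, Pi.single_eq_same]
        omega
      · simp [hij]
    simp [this]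

end Pool.Agent.Helper73.FN.Tay
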